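import Pool.Agent.Y217.PB.Stm

/-! The graph of the hull in the surface. -/

set_option autoImplicit false

universe u

namespace Pool.Agent.Y217.PB

open Set Topology Metric
open Pool.Agent.Helper775.Surf Pool.Agent.Helper775.Clo
open scoped InnerProductSpace

section

variable {M : Type u} [TopologicalSpace M] {N : ℕ} {f : M → EuclideanSpace ℝ (Fin N)}

theorem edge_fc {a b : EuclideanSpace ℝ (Fin N)} (h : Edge f a b) :
    Fc (Hul f) (segment ℝ a b) := by
  obtain ⟨hne, n, m, h1, h2⟩ := h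
  have ha : a ∈ {r | r ∈ Hul f ∧ ⟪n, r⟫_ℝ = m} := by
    rw [h2]; exact left_mem_segment ℝ a b
  rw [← h2]
  exact Fc.step (Hul f) n m Fc.top h1 ⟨a, ha.1, ha.2⟩

theorem seg_inner {a b r : EuclideanSpace ℝ (Fin N)} {t : ℝ} (hr : a + t • (b - a) = r) :
    ⟪b - a, r - a⟫_ℝ = t * ‖b - a‖ ^ 2 := by
  rw [← hr, add_sub_cancel_left, inner_smul_right, real_inner_self_eq_norm_sq]

theorem seg_inj {a b : EuclideanSpace ℝ (Fin N)} (hab : a ≠ b) :
    ∀ r ∈ segment ℝ a b, ∀ r' ∈ segment ℝ a b, ⟪b - a, r⟫_ℝ = ⟪b - a, r'⟫_ℝ → r = r' := by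
  intro r hr r' hr' h
  rw [segment_eq_image'] at hr hr'
  obtain ⟨t, -, ht⟩ := hr
  obtain ⟨t', -, ht'⟩ := hr'
  have h1 := seg_inner ht
  have h2 := seg_inner ht'
  have h3 : ⟪b - a, r - a⟫_ℝ = ⟪b - a, r' - a⟫_ℝ := by
    rw [inner_sub_right, inner_sub_right, h]
  rw [h1, h2] at h3
  have h4 : ‖b - a‖ ^ 2 ≠ 0 := by
    have : ‖b - a‖ ≠ 0 := norm_ne_zero_iff.2 (sub_ne_zero.2 hab.symm)
    positivity
  have h5 : t = t' := mul_right_cancel₀ h4 h3
  subst h5
  rw [← ht, ← ht']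

variable [CompactSpace M] [T2Space M]

theorem edge_inj (S : CSetup f) {a b : EuclideanSpace ℝ (Fin N)} (h : Edge f a b) :
    InjOn (fun x => ⟪b - a, f x⟫_ℝ) {x | f x ∈ segment ℝ a b} :=
  fc_inj S (edge_fc h) (seg_inj h.1)

theorem edge_arc (S : CSetup f) {a b : EuclideanSpace ℝ (Fin N)} (h : Edge f a b) {p q : M}
    (hp : f p = a) (hq : f q = b) : IsArc {x | f x ∈ segment ℝ a b} p q := by
  have h0 : ‖b - a‖ ≠ 0 := norm_ne_zero_iff.2 (sub_ne_zero.2 h.1.symm)
  have h4 : ‖b - a‖ ^ 2 ≠ 0 := by positivity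
  have hcl : IsClosed (segment ℝ a b) := by
    rw [segment_eq_image']
    exact (isCompact_Icc.image (by fun_prop)).isClosed
  refine ⟨hcl.preimage S.cont, ?_, ?_, fun x => ⟪b - a, f x - a⟫_ℝ / ‖b - a‖ ^ 2, ?_, ?_, ?_, ?_,
    ?_⟩
  · show f p ∈ segment ℝ a b
    rw [hp]; exact left_mem_segment ℝ a b
  · show f q ∈ segment ℝ a b
    rw [hq]; exact right_mem_segment ℝ a b
  · exact ((continuous_const.inner (S.cont.sub continuous_const))).div_const _
  · intro x hx y hy hxy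
    refine edge_inj S h hx hy ?_
    have h5 : ⟪b - a, f x - a⟫_ℝ = ⟪b - a, f y - a⟫_ℝ := by
      have := congrArg (· * ‖b - a‖ ^ 2) hxy
      simp only [div_mul_cancel₀ _ h4] at this
      exact this
    rw [inner_sub_right, inner_sub_right] at h5
    show ⟪b - a, f x⟫_ℝ = ⟪b - a, f y⟫_ℝ
    linarith
  · apply subset_antisymm
    · rintro _ ⟨x, hx, rfl⟩
      have hx' : f x ∈ segment ℝ a b := hx
      rw [segment_eq_image'] at hx'
      obtain ⟨t, ht, hxt⟩ := hx'
      show ⟪b - a, f x - a⟫_ℝ / ‖b - a‖ ^ 2 ∈ Icc 0 1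
      rw [seg_inner hxt, mul_div_cancel_right₀ _ h4]
      exact ht
    · intro t ht
      have hmem : a + t • (b - a) ∈ segment ℝ a b := by
        rw [segment_eq_image']
        exact ⟨t, ht, rfl⟩
      obtain ⟨x, hx⟩ := edge_surj S.cont S.conn h hmem
      refine ⟨x, ?_, ?_⟩
      · show f x ∈ segment ℝ a b
        rw [hx]; exact hmem
      · show ⟪b - a, f x - a⟫_ℝ / ‖b - a‖ ^ 2 = t
        rw [seg_inner hx.symm, mul_div_cancel_right₀ _ h4]
  · show ⟪b - a, f p - a⟫_ℝ / ‖b - a‖ ^ 2 = 0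
    rw [hp, sub_self, inner_zero_right, zero_div]
  · show ⟪b - a, f q - a⟫_ℝ / ‖b - a‖ ^ 2 = 1
    rw [hq, real_inner_self_eq_norm_sq, div_self h4]

omit [CompactSpace M] [T2Space M] in
theorem ext_seg {a b z : EuclideanSpace ℝ (Fin N)} (h : Edge f a b)
    (hz : z ∈ extremePoints ℝ (Hul f)) (hzs : z ∈ segment ℝ a b) : z = a ∨ z = b := by
  have ha := edge_ext h
  have hb := edge_ext h.symm
  rw [mem_extremePoints] at hz
  by_contra hcon
  push Not at hcon
  have h1 : z ∈ openSegment ℝ a b :=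
    mem_openSegment_of_ne_left_right (Ne.symm hcon.1) (Ne.symm hcon.2) hzs
  exact hcon.1 (hz.2 a ha.1 b hb.1 h1).1.symm

theorem fat_pt (x : M) : IsFat ({x} : Set M) := by
  refine ⟨isClosed_singleton, singleton_nonempty x, isPreconnected_singleton, ?_⟩
  intro t ht
  obtain ⟨W, hW, h⟩ := ht x (mem_singleton x)
  refine ⟨fun a => t x a, ?_⟩
  intro y hy
  rw [mem_singleton_iff] at hy
  subst hy
  refine ⟨W, hW, ?_⟩
  intro a ha b hb
  have h1 := h y (mem_of_mem_nhds hW) a ha b hb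
  have key : ∀ p q r : ZMod 2, p + q = r → q = p + r := by decide
  exact key _ _ _ h1

end

theorem graph : JGraph.{u} := by
  classical
  intro M _ _ _ _ _ _ N f S hfin
  have huniq : ∀ i : extremePoints ℝ (Hul f), ∃ x, f x = i.1 ∧ ∀ y, f y = i.1 → y = x :=
    fun i => ext_unique S.cont S.loc S.conn i.2
  choose P hP hP' using huniq
  have hk : ∀ k : EdgeT f, ∃ a b, Edge f a b ∧ k.1 = segment ℝ a b := fun k => k.2
  choose ea eb he hes using hk
  let I0 : EdgeT f → extremePoints ℝ (Hul f) := fun k => ⟨ea k, edge_ext (he k)⟩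
  let I1 : EdgeT f → extremePoints ℝ (Hul f) := fun k => ⟨eb k, edge_ext (he k).symm⟩
  let Γ : FGraph M (extremePoints ℝ (Hul f)) (EdgeT f) :=
    { Z := fun i => {x | f x = i.1}
      A := fun k => {x | f x ∈ k.1}
      i0 := I0
      i1 := I1
      p0 := fun k => P (I0 k)
      p1 := fun k => P (I1 k) }
  have hZs : ∀ i : extremePoints ℝ (Hul f), {x | f x = i.1} = {P i} := by
    intro i
    ext x
    constructor
    · intro hx; exact hP' i x hx
    · intro hx
      rw [mem_singleton_iff] at hx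
      subst hx
      exact hP i
  refine ⟨Γ, ⟨?_, fun _ => rfl, fun _ => rfl, fun k => hP _, fun k => hP _, he, hes⟩⟩
  refine ⟨?_, ?_, ?_, ?_, ?_, ?_, ?_, ?_, ?_⟩
  · intro i
    show IsFat {x | f x = i.1}
    rw [hZs]
    exact fat_pt _
  · intro i j hij
    show Disjoint {x | f x = i.1} {x | f x = j.1}
    rw [Set.disjoint_left]
    intro x hx hx'
    exact hij (Subtype.ext ((show f x = i.1 from hx).symm.trans hx'))
  · intro k
    show IsArc {x | f x ∈ k.1} (P (I0 k)) (P (I1 k))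
    rw [hes k]
    exact edge_arc S (he k) (hP (I0 k)) (hP (I1 k))
  · intro k; exact hP (I0 k)
  · intro k; exact hP (I1 k)
  · intro k h
    exact (he k).1 (congrArg Subtype.val h)
  · intro k i x hx hx'
    have h1 : f x ∈ segment ℝ (ea k) (eb k) := by
      rw [← hes k]; exact hx
    have h2 : f x = i.1 := hx'
    have h3 : f x ∈ extremePoints ℝ (Hul f) := by rw [h2]; exact i.2
    rcases ext_seg (he k) h3 h1 with h | h
    · left; exact hP' (I0 k) x h
    · right; exact hP' (I1 k) x h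
  · intro k l x hkl hx hx'
    have h1 : f x ∈ segment ℝ (ea k) (eb k) := by
      rw [← hes k]; exact hx
    have h2 : f x ∈ segment ℝ (ea l) (eb l) := by
      rw [← hes l]; exact hx'
    have hne : segment ℝ (ea k) (eb k) ≠ segment ℝ (ea l) (eb l) := by
      rw [← hes k, ← hes l]
      exact fun h => hkl (Subtype.ext h)
    rcases (edge_inter (he k) (he l) hne h1 h2).1 with h | h
    · exact ⟨I0 k, h⟩
    · exact ⟨I1 k, h⟩
  · intro k l hkl
    have hkl' : ({I0 k, I1 k} : Set (extremePoints ℝ (Hul f))) = {I0 l, I1 l} := hkl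
    apply Subtype.ext
    rw [hes k, hes l]
    rcases pair_eq_pair_iff.1 hkl' with ⟨h1, h2⟩ | ⟨h1, h2⟩
    · have e1 : ea k = ea l := congrArg Subtype.val h1
      have e2 : eb k = eb l := congrArg Subtype.val h2
      rw [e1, e2]
    · have e1 : ea k = eb l := congrArg Subtype.val h1
      have e2 : eb k = ea l := congrArg Subtype.val h2
      rw [e1, e2, segment_symm]

theorem injG : JInjG.{u} := by
  intro M _ _ _ _ _ _ N f S Γ hΓ
  have huniq : ∀ i : extremePoints ℝ (Hul f), ∀ x y, f x = i.1 → f y = i.1 → x = y := by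
    intro i x y hx hy
    obtain ⟨z, -, hz⟩ := ext_unique S.cont S.loc S.conn i.2
    rw [hz x hx, hz y hy]
  have hpts : ∀ x, x ∈ Γ.pts ↔ (∃ i : extremePoints ℝ (Hul f), f x = i.1) ∨
      ∃ k : EdgeT f, f x ∈ k.1 := by
    intro x
    unfold FGraph.pts
    rw [mem_union, mem_iUnion, mem_iUnion]
    simp only [hΓ.hZ, hΓ.hA, mem_setOf_eq]
  refine ⟨?_, ?_, ?_⟩
  · intro x hx y hy hxy
    rcases (hpts x).1 hx with ⟨i, hi⟩ | ⟨k, hk⟩
    · exact huniq i x y hi (hxy ▸ hi)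
    · have h1 : f x ∈ segment ℝ (Γ.i0 k).1 (Γ.i1 k).1 := by
        rw [← hΓ.seg k]; exact hk
      have h2 : f y ∈ segment ℝ (Γ.i0 k).1 (Γ.i1 k).1 := by
        rw [← hxy]; exact h1
      refine edge_inj S (hΓ.edge k) h1 h2 ?_
      show ⟪_, f x⟫_ℝ = ⟪_, f y⟫_ℝ
      rw [hxy]
  · intro x y hxy hx
    rw [hpts] at hx ⊢
    rw [← hxy]
    exact hx
  · intro x
    rw [hpts]
    constructor
    · rintro (⟨i, hi⟩ | ⟨k, hk⟩)
      · left; rw [hi]; exact i.2
      · right
        refine ⟨(Γ.i0 k).1, (Γ.i1 k).1, hΓ.edge k, ?_⟩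
        rw [← hΓ.seg k]; exact hk
    · rintro (h | ⟨a, b, hab, h⟩)
      · left; exact ⟨⟨f x, h⟩, rfl⟩
      · right; exact ⟨⟨segment ℝ a b, a, b, hab, rfl⟩, h⟩

end Pool.Agent.Y217.PB
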