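import Pool.Agent.Y217.PB.Final
import Pool.Agent.Y217.PB.Graph
import Pool.Agent.Y32.PB.Ext
import Pool.Agent.Y32.PB.Loc
import Pool.Agent.Y32.PB.Two
import Pool.Agent.Y358.PB.Sep
import Pool.Agent.Y358.PB.Three
import Pool.Agent.Y38.PB.Count
import Pool.Agent.Y38.PB.Simp
import Pool.Agent.Y563.PB.InjT
import Pool.Agent.Y563.PB.SurT
import Pool.Agent.Y852.PB.Glue
import Pool.Agent.Y917.PB.Euler
import Pool.Agent.Y917.PB.Face
import Pool.Agent.Y954.PB.Conv
import Pool.Agent.Y954.PB.Comps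
import Pool.Agent.Y543.PB.Tri
import Pool.Agent.Y220.PB.S4b
import Pool.Agent.Y721.PB.Jump
import Pool.Agent.Y77.PB.P12
import Pool.Agent.Y217.PB.P3
import Pool.Agent.Y523.PB.Card
import Pool.Agent.Y523.PB.Facet

/-! Q2 of MP_beb0a3_gt: the lemmas put together. -/

set_option autoImplicit false

universe u

namespace Pool.Agent.Y217.PB

open Set Topology Metric
open Pool.Agent.Helper775.Surf Pool.Agent.Helper775.Clo Pool.Agent.Helper775.Tight
open scoped InnerProductSpace Manifold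

theorem aGlue : JGlue.{u} := Pool.Agent.Y852.PB.glue
theorem aUnion : JUnion.{u} := Pool.Agent.Y852.PB.union_acyc
theorem aIntr : JIntr.{u} := Pool.Agent.Y852.PB.intr
theorem aArc : JArc.{u} := Pool.Agent.Y852.PB.arc
theorem aExt : JExt.{u} := Pool.Agent.Y32.PB.ext
theorem aEss : JEssAdd.{u} := Pool.Agent.Y32.PB.essAdd
theorem aPar : JParity.{u} := Pool.Agent.Y32.PB.parity
theorem aSep : JSep.{u} := Pool.Agent.Y358.PB.sep
theorem aCompl : JAcycCompl.{u} := Pool.Agent.Y358.PB.acycCompl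
theorem aLoc : JLoc.{u} := Pool.Agent.Y32.PB.loc aArc aExt aCompl
theorem aJ1 : JJump1.{u} := Pool.Agent.Y721.PB.jump1 aGlue aArc aSep aLoc
theorem aJ2 : JJump2.{u} := Pool.Agent.Y721.PB.jump2 aJ1 aExt aEss aArc
theorem aEuler : JEuler.{u} := Pool.Agent.Y917.PB.euler aJ1 aJ2 aExt aEss aPar aArc
theorem aTwo : JTwo.{u} := Pool.Agent.Y32.PB.two aGlue aArc aSep aExt aEss
theorem aPair : JPair.{u} := Pool.Agent.Y32.PB.pair aGlue aArc aSep
theorem aThree : JThree.{u} := Pool.Agent.Y358.PB.three aUnion aArc aCompl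
theorem aCount : JCount.{u} := Pool.Agent.Y38.PB.count aEuler aTwo aThree
theorem aInc : JInc := Pool.Agent.Y77.PB.inc
theorem aDeg : JDeg := Pool.Agent.Y77.PB.deg aInc
theorem aSimp : JSimp := Pool.Agent.Y217.P3.simp aInc aDeg
theorem aSx : JSimplex := Pool.Agent.Y38.PB.simplex
theorem aSf : JSimplexFace := Pool.Agent.Y38.PB.simplexFace
theorem aCard : JCard.{u} := Pool.Agent.Y523.PB.card aDeg
theorem aFacet : JFacet.{u} := Pool.Agent.Y523.PB.facet aInc aDeg graph aUnion aArc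
theorem aFace : JFace.{u} := Pool.Agent.Y917.PB.face aArc
theorem aInjT : JInjT.{u} := Pool.Agent.Y563.PB.injT
theorem aSur : JSurT.{u} := Pool.Agent.Y563.PB.sur aPair aGlue aUnion aArc aSep
theorem aConv : JConvHull.{u} := Pool.Agent.Y954.PB.convHull aSf
theorem aTri : JTriAcyc.{u} := Pool.Agent.Y543.PB.triAcyc aIntr
theorem aComps : JConvComps.{u} :=
  Pool.Agent.Y954.PB.convComps aSf aConv aTri injG aLoc aArc
theorem aEulerLe : JEulerLe.{u} := Pool.Agent.Y220.PB.eulerLe aGlue aUnion aArc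

theorem main {M : Type u} [TopologicalSpace M] [CompactSpace M] [T2Space M] [ConnectedSpace M]
    [ChartedSpace (EuclideanSpace ℝ (Fin 2)) M] {N : ℕ} (hN : 6 ≤ N)
    (f : M → EuclideanSpace ℝ (Fin N)) (hf : Continuous f)
    (hloc : ∀ x, ∃ U ∈ 𝓝 x, Set.InjOn f U) (hs : Substantial f)
    (ht : TightSurf f ∨ CechTightSurf f) :
    ((N - 2).choose 2 : ℤ) ≤ 3 * (2 - eulerChar M) ∧
    (((N - 2).choose 2 : ℤ) = 3 * (2 - eulerChar M) ↔
      Function.Injective f ∧ ∃ (a : Fin (N + 1) → EuclideanSpace ℝ (Fin N))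
        (T : Set (Finset (Fin (N + 1)))), AffineIndependent ℝ a ∧ (∀ t ∈ T, t.card = 3) ∧
        Set.range f = ⋃ t ∈ T, convexHull ℝ (a '' (t : Set (Fin (N + 1))))) :=
  final aCount graph aFacet aSimp aSx aSf injG aFace aSur aInjT aCard aConv aComps aEulerLe
    hN f hf hloc hs ht

end Pool.Agent.Y217.PB
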