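import Pool.Agent.Y217.PB.Fwd

/-! The case of equality, backward direction. -/

set_option autoImplicit false

universe u

namespace Pool.Agent.Y217.PB

open Set Topology Metric
open Pool.Agent.Helper775.Surf Pool.Agent.Helper775.Clo
open scoped InnerProductSpace

theorem double_count {α β : Type*} [Fintype β] (𝒞 : Set α) (hf : 𝒞.Finite) (R : α → β → Prop)
    (h3 : ∀ C ∈ 𝒞, {k | R C k}.ncard ≤ 3)
    (h2 : ∀ k, ∃ C₁ ∈ 𝒞, ∃ C₂ ∈ 𝒞, C₁ ≠ C₂ ∧ R C₁ k ∧ R C₂ k) :
    2 * Fintype.card β ≤ 3 * 𝒞.ncard := by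
  classical
  have h := Finset.sum_card_bipartiteAbove_eq_sum_card_bipartiteBelow (s := hf.toFinset)
    (t := (Finset.univ : Finset β)) R
  have h4 : ∑ C ∈ hf.toFinset, (Finset.bipartiteAbove R (Finset.univ : Finset β) C).card ≤
      ∑ _C ∈ hf.toFinset, 3 := by
    refine Finset.sum_le_sum fun C hC => ?_
    have h5 := h3 C (hf.mem_toFinset.1 hC)
    have h6 : {k | R C k} = ((Finset.bipartiteAbove R (Finset.univ : Finset β) C : Finset β) :
        Set β) := by
      ext k; simp [Finset.bipartiteAbove]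
    rw [h6, ncard_coe_finset] at h5
    exact h5
  have h7 : ∑ _k ∈ (Finset.univ : Finset β), 2 ≤
      ∑ k ∈ (Finset.univ : Finset β), (Finset.bipartiteBelow R hf.toFinset k).card := by
    refine Finset.sum_le_sum fun k _ => ?_
    obtain ⟨C₁, hC₁, C₂, hC₂, hne, r1, r2⟩ := h2 k
    have h8 : ({C₁, C₂} : Finset α) ⊆ Finset.bipartiteBelow R hf.toFinset k := by
      intro C hC
      rw [Finset.mem_insert, Finset.mem_singleton] at hC
      rw [Finset.bipartiteBelow, Finset.mem_filter, hf.mem_toFinset]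
      rcases hC with rfl | rfl
      · exact ⟨hC₁, r1⟩
      · exact ⟨hC₂, r2⟩
    calc 2 = ({C₁, C₂} : Finset α).card := (Finset.card_pair hne).symm
      _ ≤ _ := Finset.card_le_card h8
  rw [Finset.sum_const, smul_eq_mul, Finset.card_univ] at h7
  rw [Finset.sum_const, smul_eq_mul, ← ncard_eq_toFinset_card 𝒞 hf] at h4
  rw [← h] at h7
  linarith

variable {M : Type u} [TopologicalSpace M] [CompactSpace M] [T2Space M]
  [TopologicalSpace.MetrizableSpace M] [ConnectedSpace M] [LocallyPathConnectedSpace M]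
  {N : ℕ} {f : M → EuclideanSpace ℝ (Fin N)}

theorem backward (hG : JGraph.{u}) (hC : JCard.{u}) (hF : JSimplexFace) (hCH : JConvHull.{u})
    (hCC : JConvComps.{u}) (hEL : JEulerLe.{u}) (S : CSetup f) (hN : 6 ≤ N)
    (hinj : Function.Injective f) (a : Fin (N + 1) → EuclideanSpace ℝ (Fin N))
    (T : Set (Finset (Fin (N + 1)))) (ha : AffineIndependent ℝ a) (hT : ∀ t ∈ T, t.card = 3)
    (hr : range f = ⋃ t ∈ T, convexHull ℝ (a '' (t : Set (Fin (N + 1))))) :
    6 * betti1 M + 5 * N ≤ N * N + 6 := by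
  classical
  obtain ⟨hK, hext⟩ := hCH M N f S (by omega) a T ha hr
  have hfin : (extremePoints ℝ (Hul f)).Finite := by rw [hext]; exact finite_range a
  have hv : (extremePoints ℝ (Hul f)).ncard = N + 1 := by
    rw [hext, ← image_univ, ncard_image_of_injective _ ha.injective, ncard_univ,
      Nat.card_eq_fintype_card, Fintype.card_fin]
  obtain ⟨Γ, hΓ⟩ := hG M N f S hfin
  obtain ⟨hE, -, -, h3, -⟩ := hC M N f S hfin
  haveI : Fintype (extremePoints ℝ (Hul f)) := hfin.fintype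
  haveI : Fintype (EdgeT f) := Fintype.ofFinite _
  obtain ⟨g1, g2, g3⟩ := hCC M N f S (by omega) hinj a T ha hT hr Γ hΓ
  have hex : ∀ i : extremePoints ℝ (Hul f), ∃ t, a t = i.1 := by
    intro i
    have h : i.1 ∈ range a := hext ▸ i.2
    exact h
  have hmem : ∀ t, a t ∈ extremePoints ℝ (Hul f) := by
    intro t; rw [hext]; exact mem_range_self t
  have hstar : ∃ j : extremePoints ℝ (Hul f), ∀ i, i ≠ j → ∃ k,
      ({Γ.i0 k, Γ.i1 k} : Set (extremePoints ℝ (Hul f))) = {j, i} := by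
    refine ⟨⟨a 0, hmem 0⟩, ?_⟩
    intro i hi
    obtain ⟨t, ht⟩ := hex i
    have ht0 : (0 : Fin (N + 1)) ≠ t := by
      rintro rfl
      exact hi (Subtype.ext ht.symm)
    have hedge : Edge f (a 0) (a t) := pair_edge hF ha hK ht0
    refine ⟨⟨segment ℝ (a 0) (a t), a 0, a t, hedge, rfl⟩, ?_⟩
    have h5 := hΓ.seg ⟨segment ℝ (a 0) (a t), a 0, a t, hedge, rfl⟩
    set k : EdgeT f := ⟨segment ℝ (a 0) (a t), a 0, a t, hedge, rfl⟩
    have h6 : segment ℝ (a 0) (a t) = segment ℝ (Γ.i0 k).1 (Γ.i1 k).1 := h5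
    have ei : i = ⟨a t, hmem t⟩ := Subtype.ext ht.symm
    rcases edge_eq_of_segment_eq h6 with ⟨e0, e1⟩ | ⟨e0, e1⟩
    · have q0 : Γ.i0 k = ⟨a 0, hmem 0⟩ := Subtype.ext e0.symm
      have q1 : Γ.i1 k = ⟨a t, hmem t⟩ := Subtype.ext e1.symm
      rw [q0, q1, ei]
    · have q0 : Γ.i1 k = ⟨a 0, hmem 0⟩ := Subtype.ext e0.symm
      have q1 : Γ.i0 k = ⟨a t, hmem t⟩ := Subtype.ext e1.symm
      rw [q0, q1, ei, pair_comm]
  have h7 := hEL M N f S _ _ Γ hΓ.good g1 hstar (fun C hCc => ⟨(g2 C hCc).1, (g2 C hCc).2.1⟩)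
  have h8 := double_count (comps Γ.pts) g1 (fun C k => Γ.Adj C k)
    (fun C hCc => (g2 C hCc).2.2.2) g3
  have h9 : Fintype.card (extremePoints ℝ (Hul f)) = N + 1 := by
    rw [← Nat.card_eq_fintype_card, Nat.card_coe_set_eq, hv]
  rw [h9] at h7
  rw [hv, Nat.card_eq_fintype_card, Nat.add_sub_cancel] at h3
  set e := Fintype.card (EdgeT f)
  set F := (comps Γ.pts).ncard
  nlinarith

end Pool.Agent.Y217.PB
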