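import Pool.Agent.Helper775.Tight.SingDefs

/-! The Euler characteristic of a closed connected surface, by singular homology mod 2. -/

set_option autoImplicit false

universe u

namespace Pool.Agent.Y217.PB

open Pool.Agent.Helper775.Tight

/-- The dimension of the first singular homology group `H_1(M; ℤ/2)`, that is, of the image of the
singular 1-cycles mod 2 in the quotient of the 1-chains by the boundaries of singular 2-chains. -/
noncomputable def firstBetti (M : Type u) [TopologicalSpace M] : ℕ :=
  Module.finrank (ZMod 2) ↥((LinearMap.ker (bdry M 0)).map (LinearMap.range (bdry M 1)).mkQ)

end Pool.Agent.Y217.PB
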