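import Pool.Agent.Y217.PB.All
import Pool.Agent.Y447.PB.Betti

/-! Q2 of MP_beb0a3_gt with the Euler characteristic by singular homology mod 2. -/

set_option autoImplicit false

universe u

namespace Pool.Agent.Y217.PB

open Set Topology Metric
open Pool.Agent.Helper775.Surf Pool.Agent.Helper775.Clo Pool.Agent.Helper775.Tight
open scoped Manifold

/-- The singular 1-cycles of `M` mod 2. -/
noncomputable def cycles1 (M : Type u) [TopologicalSpace M] :
    Submodule (ZMod 2) (Sing M 1 →₀ ZMod 2) := LinearMap.ker (bdry M 0)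

/-- The boundaries of singular 2-chains of `M` mod 2. -/
noncomputable def bounds1 (M : Type u) [TopologicalSpace M] :
    Submodule (ZMod 2) (Sing M 1 →₀ ZMod 2) := LinearMap.range (bdry M 1)

/-- The first singular homology group `H_1(M; ℤ/2)`: the image of the 1-cycles in the 1-chains
modulo the boundaries. -/
noncomputable def hom1 (M : Type u) [TopologicalSpace M] :
    Submodule (ZMod 2) ((Sing M 1 →₀ ZMod 2) ⧸ bounds1 M) :=
  (cycles1 M).map (bounds1 M).mkQ

/-- The first Betti number `dim H_1(M; ℤ/2)`. -/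
noncomputable def b1 (M : Type u) [TopologicalSpace M] : ℕ := Module.finrank (ZMod 2) (hom1 M)

/-- The Euler characteristic `b₀ - b₁ + b₂` (coefficients `ℤ/2`, singular homology) of a closed
connected surface `M`, for which `b₀ = b₂ = 1`. -/
noncomputable def chi (M : Type u) [TopologicalSpace M] : ℤ := 2 - (b1 M : ℤ)

theorem b1_eq (M : Type u) [TopologicalSpace M] : b1 M = firstBetti M := rfl

theorem eulerChar_eq_chi (M : Type u) [TopologicalSpace M] [CompactSpace M] [T2Space M]
    [ConnectedSpace M] [ChartedSpace (EuclideanSpace ℝ (Fin 2)) M] : eulerChar M = chi M := by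
  unfold eulerChar chi
  rw [Pool.Agent.Y447.PB.betti M, b1_eq]

theorem mainChi {M : Type u} [TopologicalSpace M] [CompactSpace M] [T2Space M] [ConnectedSpace M]
    [ChartedSpace (EuclideanSpace ℝ (Fin 2)) M] {N : ℕ} (hN : 6 ≤ N)
    (f : M → EuclideanSpace ℝ (Fin N)) (hf : Continuous f)
    (hloc : ∀ x, ∃ U ∈ 𝓝 x, Set.InjOn f U) (hs : Substantial f)
    (ht : TightSurf f ∨ CechTightSurf f) :
    ((N - 2).choose 2 : ℤ) ≤ 3 * (2 - chi M) ∧
    (((N - 2).choose 2 : ℤ) = 3 * (2 - chi M) ↔
      Function.Injective f ∧ ∃ (a : Fin (N + 1) → EuclideanSpace ℝ (Fin N))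
        (T : Set (Finset (Fin (N + 1)))), AffineIndependent ℝ a ∧ (∀ t ∈ T, t.card = 3) ∧
        Set.range f = ⋃ t ∈ T, convexHull ℝ (a '' (t : Set (Fin (N + 1))))) := by
  have h := main hN f hf hloc hs ht
  rw [eulerChar_eq_chi M] at h
  exact h

end Pool.Agent.Y217.PB
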