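import Pool.Agent.Y217.PB.Bwd

/-! Q2 of MP_beb0a3_gt from the lemmas. -/

set_option autoImplicit false

universe u

namespace Pool.Agent.Y217.PB

open Set Topology Metric
open Pool.Agent.Helper775.Surf Pool.Agent.Helper775.Clo Pool.Agent.Helper775.Tight
open scoped InnerProductSpace Manifold

/-- The Euler characteristic `b₀ - b₁ + b₂` (coefficients `ℤ/2`) of a closed connected surface, for
which `b₀ = b₂ = 1`. -/
noncomputable def eulerChar (M : Type u) [TopologicalSpace M] : ℤ := 2 - (betti1 M : ℤ)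

theorem two_choose (N : ℕ) (hN : 6 ≤ N) : 2 * (N - 2).choose 2 + 5 * N = N * N + 6 := by
  obtain ⟨k, rfl⟩ : ∃ k, N = k + 3 := ⟨N - 3, by omega⟩
  have h1 : k + 3 - 2 = k + 1 := by omega
  have h2 : (k + 1).choose 2 * 2 = (k + 1) * k := by
    have h := Nat.triangle_succ k
    rw [Nat.choose_two_right]
    have h3 : 2 ∣ (k + 1) * (k + 1 - 1) := by
      rw [Nat.add_sub_cancel, mul_comm]
      exact (Nat.even_mul_succ_self k).two_dvd
    rw [Nat.div_mul_cancel h3, Nat.add_sub_cancel]
  rw [h1]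
  nlinarith

theorem final (hKc : JCount.{u}) (hG : JGraph.{u}) (hFt : JFacet.{u}) (hSm : JSimp)
    (hSx : JSimplex) (hF : JSimplexFace) (hI : JInjG.{u}) (hFa : JFace.{u}) (hSu : JSurT.{u})
    (hIn : JInjT.{u}) (hC : JCard.{u}) (hCH : JConvHull.{u}) (hCC : JConvComps.{u})
    (hEL : JEulerLe.{u})
    {M : Type u} [TopologicalSpace M] [CompactSpace M] [T2Space M] [ConnectedSpace M]
    [ChartedSpace (EuclideanSpace ℝ (Fin 2)) M] {N : ℕ} (hN : 6 ≤ N)
    (f : M → EuclideanSpace ℝ (Fin N)) (hf : Continuous f)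
    (hloc : ∀ x, ∃ U ∈ 𝓝 x, Set.InjOn f U) (hs : Substantial f)
    (ht : TightSurf f ∨ CechTightSurf f) :
    ((N - 2).choose 2 : ℤ) ≤ 3 * (2 - eulerChar M) ∧
    (((N - 2).choose 2 : ℤ) = 3 * (2 - eulerChar M) ↔
      Function.Injective f ∧ ∃ (a : Fin (N + 1) → EuclideanSpace ℝ (Fin N))
        (T : Set (Finset (Fin (N + 1)))), AffineIndependent ℝ a ∧ (∀ t ∈ T, t.card = 3) ∧
        Set.range f = ⋃ t ∈ T, convexHull ℝ (a '' (t : Set (Fin (N + 1))))) := by
  have hInt : ∀ x : M, IntPt x := int_of_charted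
  haveI := clo_locPath hInt
  haveI : SecondCountableTopology M :=
    ChartedSpace.secondCountable_of_sigmaCompact (EuclideanSpace ℝ (Fin 2)) M
  haveI : TopologicalSpace.MetrizableSpace M := inferInstance
  obtain ⟨hc, hS⟩ := tight_sur_two hf ht
  have S : CSetup f := ⟨hf, hloc, hs, hc, hS, hInt, clo_finH1 hInt, clo_punct hInt⟩
  have hfin := clo_ext_finite S hN
  have h1 := ineq hKc hG hC S hfin hN
  have h2 := two_choose N hN
  have e : (2 : ℤ) - eulerChar M = betti1 M := by
    unfold eulerChar; ring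
  rw [e]
  constructor
  · have h3 : (N - 2).choose 2 ≤ 3 * betti1 M := by omega
    exact_mod_cast h3
  · constructor
    · intro h
      have h3 : (N - 2).choose 2 = 3 * betti1 M := by exact_mod_cast h
      exact forward hKc hG hFt hSm hSx hF hI hFa hSu hIn hC S hN hfin (by omega)
    · rintro ⟨hinj, a, T, ha, hT, hr⟩
      have h4 := backward hG hC hF hCH hCC hEL S hN hinj a T ha hT hr
      have h3 : (N - 2).choose 2 = 3 * betti1 M := by omega
      exact_mod_cast h3

end Pool.Agent.Y217.PB
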