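import Pool.Agent.Y217.PB.Ineq

/-! The case of equality, forward direction. -/

set_option autoImplicit false

universe u

namespace Pool.Agent.Y217.PB

open Set Topology Metric
open Pool.Agent.Helper775.Surf Pool.Agent.Helper775.Clo
open scoped InnerProductSpace

theorem hull_inter {N : ℕ} {a : Fin (N + 1) → EuclideanSpace ℝ (Fin N)}
    (ha : AffineIndependent ℝ a) (s t : Finset (Fin (N + 1))) :
    convexHull ℝ (a '' (s : Set (Fin (N + 1)))) ∩ convexHull ℝ (a '' (t : Set (Fin (N + 1)))) =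
      convexHull ℝ (a '' ((s ∩ t : Finset (Fin (N + 1))) : Set (Fin (N + 1)))) := by
  classical
  have hinj : Function.Injective a := ha.injective
  have h1 : AffineIndependent ℝ
      ((↑) : ((Finset.univ.image a : Finset (EuclideanSpace ℝ (Fin N))) :
        Set (EuclideanSpace ℝ (Fin N))) → EuclideanSpace ℝ (Fin N)) := by
    have h2 := ha.range
    have h3 : ((Finset.univ.image a : Finset (EuclideanSpace ℝ (Fin N))) :
        Set (EuclideanSpace ℝ (Fin N))) = range a := by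
      ext x; simp
    exact h2.mono h3.le
  have h4 := h1.convexHull_inter (t₁ := s.image a) (t₂ := t.image a)
    (Finset.image_subset_image (Finset.subset_univ s))
    (Finset.image_subset_image (Finset.subset_univ t))
  have h5 : (((s.image a : Finset (EuclideanSpace ℝ (Fin N))) :
      Set (EuclideanSpace ℝ (Fin N))) ∩ ((t.image a : Finset (EuclideanSpace ℝ (Fin N))) :
      Set (EuclideanSpace ℝ (Fin N)))) = a '' ((s ∩ t : Finset (Fin (N + 1))) :
      Set (Fin (N + 1))) := by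
    rw [Finset.coe_image, Finset.coe_image, ← image_inter hinj, Finset.coe_inter]
  rw [h5] at h4
  rw [h4, Finset.coe_image, Finset.coe_image]

theorem inj3 {α : Type} {x y z : α} (h1 : x ≠ y) (h2 : y ≠ z) (h3 : z ≠ x) :
    Function.Injective ![x, y, z] := by
  intro i j hij
  fin_cases i <;> fin_cases j
  · rfl
  · exact absurd hij h1
  · exact absurd hij.symm h3
  · exact absurd hij.symm h1
  · rfl
  · exact absurd hij h2
  · exact absurd hij h3
  · exact absurd hij.symm h2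
  · rfl

section

variable {M : Type u} [TopologicalSpace M] [CompactSpace M] [T2Space M]
  [TopologicalSpace.MetrizableSpace M] [ConnectedSpace M] [LocallyPathConnectedSpace M]
  {N : ℕ} {f : M → EuclideanSpace ℝ (Fin N)}

/-- any two vertices of a simplex are joined by an edge -/
theorem pair_edge (hF : JSimplexFace) {a : Fin (N + 1) → EuclideanSpace ℝ (Fin N)}
    (ha : AffineIndependent ℝ a) (hK : Hul f = convexHull ℝ (range a)) {i j : Fin (N + 1)}
    (hij : i ≠ j) : Edge f (a i) (a j) := by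
  obtain ⟨n, m, h1, h2⟩ := (hF N a ha).2 {i, j}
  refine ⟨fun h => hij (ha.injective h), n, m, ?_, ?_⟩
  · rw [hK]; exact h1
  · rw [hK, h2, image_pair, convexHull_pair]

/-- a point of the hull of at most two vertices is on the graph -/
theorem small_pts (hF : JSimplexFace) (hI : JInjG.{u}) (S : CSetup f)
    {a : Fin (N + 1) → EuclideanSpace ℝ (Fin N)}
    (ha : AffineIndependent ℝ a) (hK : Hul f = convexHull ℝ (range a))
    (hr : range a = extremePoints ℝ (Hul f))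
    {Γ : FGraph M (extremePoints ℝ (Hul f)) (EdgeT f)} (hΓ : HGraph f Γ)
    {s : Finset (Fin (N + 1))} (hs : s.card ≤ 2) {x : M}
    (hx : f x ∈ convexHull ℝ (a '' (s : Set (Fin (N + 1))))) : x ∈ Γ.pts := by
  rw [(hI M N f S Γ hΓ).2.2 x]
  have h3 : s.card = 0 ∨ s.card = 1 ∨ s.card = 2 := by omega
  rcases h3 with h | h | h
  · rw [Finset.card_eq_zero] at h
    subst h
    simp at hx
  · obtain ⟨i, rfl⟩ := Finset.card_eq_one.1 h
    left
    rw [Finset.coe_singleton, image_singleton, convexHull_singleton, mem_singleton_iff] at hx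
    rw [← hr, hx]
    exact mem_range_self i
  · obtain ⟨i, j, hij, rfl⟩ := Finset.card_eq_two.1 h
    right
    refine ⟨a i, a j, pair_edge hF ha hK hij, ?_⟩
    rw [Finset.coe_pair, image_pair, convexHull_pair] at hx
    exact hx

/-- the triangle of a component -/
theorem tri_data (hF : JSimplexFace) (hI : JInjG.{u}) (hFa : JFace.{u}) (hSu : JSurT.{u})
    (hIn : JInjT.{u}) (hC : JCard.{u}) (S : CSetup f) (hN : 6 ≤ N)
    (hfin : (extremePoints ℝ (Hul f)).Finite)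
    {a : Fin (N + 1) → EuclideanSpace ℝ (Fin N)}
    (ha : AffineIndependent ℝ a) (hK : Hul f = convexHull ℝ (range a))
    (hr : range a = extremePoints ℝ (Hul f))
    {Γ : FGraph M (extremePoints ℝ (Hul f)) (EdgeT f)} (hΓ : HGraph f Γ)
    {C : Set M} (hCc : C ∈ comps Γ.pts)
    (h3 : ∃ k₁ k₂ k₃, Γ.Tri k₁ k₂ k₃ ∧ ∀ k, Γ.Adj C k ↔ k = k₁ ∨ k = k₂ ∨ k = k₃)
    (h2 : ∀ k, ∃ C₁ ∈ comps Γ.pts, ∃ C₂ ∈ comps Γ.pts, C₁ ≠ C₂ ∧ Γ.Adj C₁ k ∧ Γ.Adj C₂ k) :
    ∃ t : Finset (Fin (N + 1)), t.card = 3 ∧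
      (∀ x ∈ C, f x ∈ convexHull ℝ (a '' (t : Set (Fin (N + 1))))) ∧
      convexHull ℝ (a '' (t : Set (Fin (N + 1)))) ⊆ range f ∧
      InjOn f {x | f x ∈ convexHull ℝ (a '' (t : Set (Fin (N + 1))))} ∧
      ∀ k, Γ.Adj C k → k.1 ⊆ convexHull ℝ (a '' (t : Set (Fin (N + 1)))) := by
  classical
  obtain ⟨k₁, k₂, k₃, ⟨i₁, i₂, i₃, h12, h23, h31, e1, e2, e3⟩, hadj⟩ := h3
  have hex : ∀ i : extremePoints ℝ (Hul f), ∃ t, a t = i.1 := by
    intro i
    have h : i.1 ∈ range a := hr.symm ▸ i.2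
    exact h
  obtain ⟨t₁, ht₁⟩ := hex i₁
  obtain ⟨t₂, ht₂⟩ := hex i₂
  obtain ⟨t₃, ht₃⟩ := hex i₃
  have n12 : t₁ ≠ t₂ := by
    rintro rfl; exact h12 (Subtype.ext (ht₁.symm.trans ht₂))
  have n23 : t₂ ≠ t₃ := by
    rintro rfl; exact h23 (Subtype.ext (ht₂.symm.trans ht₃))
  have n31 : t₃ ≠ t₁ := by
    rintro rfl; exact h31 (Subtype.ext (ht₃.symm.trans ht₁))
  have himg : a '' (({t₁, t₂, t₃} : Finset (Fin (N + 1))) : Set (Fin (N + 1))) =
      {i₁.1, i₂.1, i₃.1} := by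
    simp only [Finset.coe_insert, Finset.coe_singleton, image_insert_eq, image_singleton, ht₁, ht₂,
      ht₃]
  -- endpoints of the three edges
  have hend : ∀ k, (k = k₁ ∨ k = k₂ ∨ k = k₃) →
      (Γ.i0 k = i₁ ∨ Γ.i0 k = i₂ ∨ Γ.i0 k = i₃) ∧ (Γ.i1 k = i₁ ∨ Γ.i1 k = i₂ ∨ Γ.i1 k = i₃) := by
    intro k hk
    have key : ∀ (k : EdgeT f) (i j : extremePoints ℝ (Hul f)),
        ({Γ.i0 k, Γ.i1 k} : Set (extremePoints ℝ (Hul f))) = {i, j} →
        (Γ.i0 k = i ∨ Γ.i0 k = j) ∧ (Γ.i1 k = i ∨ Γ.i1 k = j) := by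
      intro k i j h
      have h0 : Γ.i0 k ∈ ({i, j} : Set (extremePoints ℝ (Hul f))) := by
        rw [← h]; exact mem_insert _ _
      have h1 : Γ.i1 k ∈ ({i, j} : Set (extremePoints ℝ (Hul f))) := by
        rw [← h]; exact mem_insert_of_mem _ (mem_singleton _)
      exact ⟨h0, h1⟩
    rcases hk with rfl | rfl | rfl
    · obtain ⟨h, h'⟩ := key _ _ _ e1; tauto
    · obtain ⟨h, h'⟩ := key _ _ _ e2; tauto
    · obtain ⟨h, h'⟩ := key _ _ _ e3; tauto
  have hface := hFa M N f S (by omega) hfin (four_le hC S hfin hN) Γ hΓ C hCc i₁ i₂ i₃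
    (fun k hk => hend k ((hadj k).1 hk))
  have hexp : ∃ (n : EuclideanSpace ℝ (Fin N)) (m : ℝ), (∀ x ∈ Hul f, ⟪n, x⟫_ℝ ≤ m) ∧
      {x | x ∈ Hul f ∧ ⟪n, x⟫_ℝ = m} = convexHull ℝ {i₁.1, i₂.1, i₃.1} := by
    obtain ⟨n, m, g1, g2⟩ := (hF N a ha).2
      (({t₁, t₂, t₃} : Finset (Fin (N + 1))) : Set (Fin (N + 1)))
    refine ⟨n, m, ?_, ?_⟩
    · intro x hx
      exact g1 x (hK ▸ hx)
    · rw [← himg, ← g2]
      ext x
      constructor
      · rintro ⟨hx, hx'⟩
        exact ⟨hK ▸ hx, hx'⟩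
      · rintro ⟨hx, hx'⟩
        exact ⟨hK.symm ▸ hx, hx'⟩
  have hind : AffineIndependent ℝ ![i₁.1, i₂.1, i₃.1] := by
    have hinj : Function.Injective ![t₁, t₂, t₃] := inj3 n12 n23 n31
    have h := ha.comp_embedding ⟨![t₁, t₂, t₃], hinj⟩
    have e : (a ∘ (⟨![t₁, t₂, t₃], hinj⟩ : Fin 3 ↪ Fin (N + 1))) = ![i₁.1, i₂.1, i₃.1] := by
      funext x
      fin_cases x
      · exact ht₁
      · exact ht₂
      · exact ht₃
    rw [e] at h
    exact h
  obtain ⟨hE, -⟩ := hC M N f S hfin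
  have hsur : convexHull ℝ ({i₁.1, i₂.1, i₃.1} : Set (EuclideanSpace ℝ (Fin N))) ⊆ range f := by
    refine hSu M N f S hfin hE Γ hΓ C hCc i₁ i₂ i₃ k₁ k₂ k₃ h12 h23 h31 e1 e2 e3
      (fun k hk => (hadj k).1 hk) ((hadj k₁).2 (Or.inl rfl)) ?_ hind hexp
    obtain ⟨C₁, hC₁, C₂, hC₂, hne, ha1, ha2⟩ := h2 k₁
    by_cases h : C₁ = C
    · exact ⟨C₂, hC₂, fun h' => hne (h.trans h'.symm), ha2⟩
    · exact ⟨C₁, hC₁, h, ha1⟩
  have hseg : ∀ (p q : extremePoints ℝ (Hul f)), p ≠ q → ∀ x, f x ∈ segment ℝ p.1 q.1 →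
      x ∈ Γ.pts := by
    intro p q hpq x hx
    rw [(hI M N f S Γ hΓ).2.2 x]
    obtain ⟨s, hs⟩ := hex p
    obtain ⟨t, ht⟩ := hex q
    right
    refine ⟨p.1, q.1, ?_, hx⟩
    rw [← hs, ← ht]
    refine pair_edge hF ha hK ?_
    rintro rfl
    exact hpq (Subtype.ext (hs.symm.trans ht))
  have hinjT := hIn M N f S i₁.1 i₂.1 i₃.1 hind hexp hsur (by
    refine (hI M N f S Γ hΓ).1.mono ?_
    rintro x ((hx | hx) | hx)
    · exact hseg _ _ h12 x hx
    · exact hseg _ _ h23 x hx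
    · exact hseg _ _ h31 x hx)
  refine ⟨{t₁, t₂, t₃}, ?_, ?_, ?_, ?_, ?_⟩
  · rw [Finset.card_eq_three]
    exact ⟨t₁, t₂, t₃, n12, n31.symm, n23, rfl⟩
  · rw [himg]; exact hface
  · rw [himg]; exact hsur
  · rw [himg]; exact hinjT
  · intro k hk
    rw [himg, hΓ.seg k]
    obtain ⟨h0, h1⟩ := hend k ((hadj k).1 hk)
    have hmem : ∀ i : extremePoints ℝ (Hul f), (i = i₁ ∨ i = i₂ ∨ i = i₃) →
        i.1 ∈ convexHull ℝ ({i₁.1, i₂.1, i₃.1} : Set (EuclideanSpace ℝ (Fin N))) := by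
      rintro i (rfl | rfl | rfl)
      · exact subset_convexHull ℝ _ (by simp)
      · exact subset_convexHull ℝ _ (by simp)
      · exact subset_convexHull ℝ _ (by simp)
    exact (convex_convexHull ℝ _).segment_subset (hmem _ h0) (hmem _ h1)

/-- equality implies that the surface is an embedded subcomplex of a simplex -/
theorem forward (hKc : JCount.{u}) (hG : JGraph.{u}) (hFt : JFacet.{u}) (hSm : JSimp)
    (hSx : JSimplex) (hF : JSimplexFace) (hI : JInjG.{u}) (hFa : JFace.{u}) (hSu : JSurT.{u})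
    (hIn : JInjT.{u}) (hC : JCard.{u}) (S : CSetup f) (hN : 6 ≤ N)
    (hfin : (extremePoints ℝ (Hul f)).Finite)
    (heq : N * N + 6 = 6 * betti1 M + 5 * N) :
    Function.Injective f ∧ ∃ (a : Fin (N + 1) → EuclideanSpace ℝ (Fin N))
      (T : Set (Finset (Fin (N + 1)))), AffineIndependent ℝ a ∧ (∀ t ∈ T, t.card = 3) ∧
      range f = ⋃ t ∈ T, convexHull ℝ (a '' (t : Set (Fin (N + 1)))) := by
  classical
  obtain ⟨hv, he⟩ := card_eq hKc hG hC hFt hSm S hfin hN heq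
  obtain ⟨a, ha, hr, hK⟩ := hSx N (Hul f) (hul_compact S.cont) (convex_convexHull ℝ _)
    (hul_interior S) hv
  obtain ⟨Γ, hΓ⟩ := hG M N f S hfin
  have h4 := four_le hC S hfin hN
  obtain ⟨hE, -⟩ := hC M N f S hfin
  haveI : Fintype (extremePoints ℝ (Hul f)) := hfin.fintype
  haveI : Fintype (EdgeT f) := Fintype.ofFinite _
  have h4' := h4
  rw [Nat.card_eq_fintype_card] at h4'
  have hcount := (hKc M N f S _ _ Γ hΓ.good h4').2.2 (by
    rw [← Nat.card_eq_fintype_card, ← Nat.card_eq_fintype_card, Nat.card_coe_set_eq, hv]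
    nlinarith)
  have hT := fun (C : Set M) (hCc : C ∈ comps Γ.pts) =>
    tri_data hF hI hFa hSu hIn hC S hN hfin ha hK hr hΓ hCc (hcount.1 C hCc) hcount.2
  -- off the graph
  have hoff : ∀ x, x ∉ Γ.pts → ∃ C ∈ comps Γ.pts, x ∈ C := by
    intro x hx
    exact ⟨connectedComponentIn Γ.ptsᶜ x, ⟨x, hx, rfl⟩, mem_connectedComponentIn hx⟩
  refine ⟨?_, a, {t | t.card = 3 ∧ convexHull ℝ (a '' (t : Set (Fin (N + 1)))) ⊆ range f}, ha,
    fun t ht => ht.1, ?_⟩
  · intro x y hxy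
    obtain ⟨g1, g2, g3⟩ := hI M N f S Γ hΓ
    by_cases hx : x ∈ Γ.pts
    · exact g1 hx (g2 x y hxy hx) hxy
    · have hy : y ∉ Γ.pts := fun h => hx (g2 y x hxy.symm h)
      obtain ⟨C, hCc, hxC⟩ := hoff x hx
      obtain ⟨C', hCc', hyC⟩ := hoff y hy
      obtain ⟨t, ht, hxt, -, hinj, -⟩ := hT C hCc
      obtain ⟨t', ht', hyt, -, hinj', -⟩ := hT C' hCc'
      by_cases htt : t = t'
      · subst htt
        exact hinj (hxt x hxC) (hyt y hyC) hxy
      · exfalso
        have h5 : f x ∈ convexHull ℝ (a '' ((t ∩ t' : Finset (Fin (N + 1))) :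
            Set (Fin (N + 1)))) := by
          rw [← hull_inter ha]
          refine ⟨hxt x hxC, ?_⟩
          rw [hxy]
          exact hyt y hyC
        refine hx (small_pts hF hI S ha hK hr hΓ ?_ h5)
        by_contra hcon
        push Not at hcon
        have h6 : (t ∩ t').card ≤ t.card := Finset.card_le_card Finset.inter_subset_left
        have h7 : t ∩ t' = t := Finset.eq_of_subset_of_card_le Finset.inter_subset_left (by omega)
        have h8 : t ∩ t' = t' := Finset.eq_of_subset_of_card_le Finset.inter_subset_right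
          (by omega)
        exact htt (h7.symm.trans h8)
  · apply subset_antisymm
    · rintro _ ⟨x, rfl⟩
      rw [mem_iUnion₂]
      by_cases hx : x ∈ Γ.pts
      · -- on an edge
        have h5 : ∃ k : EdgeT f, f x ∈ k.1 := by
          rcases ((hI M N f S Γ hΓ).2.2 x).1 hx with h | ⟨p, q, hpq, h⟩
          · rw [← hr] at h
            obtain ⟨i, hi⟩ := h
            obtain ⟨j, hj⟩ : ∃ j : Fin (N + 1), j ≠ i := by
              haveI : Nontrivial (Fin (N + 1)) := Fin.nontrivial_iff_two_le.2 (by omega)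
              exact exists_ne i
            refine ⟨⟨segment ℝ (a i) (a j), a i, a j, pair_edge hF ha hK hj.symm, rfl⟩, ?_⟩
            rw [← hi]
            exact left_mem_segment ℝ _ _
          · exact ⟨⟨segment ℝ p q, p, q, hpq, rfl⟩, h⟩
        obtain ⟨k, hk⟩ := h5
        obtain ⟨C₁, hC₁, -, -, -, hadj, -⟩ := hcount.2 k
        obtain ⟨t, ht, -, hsub, -, hk'⟩ := hT C₁ hC₁
        exact ⟨t, ⟨ht, hsub⟩, hk' k hadj hk⟩
      · obtain ⟨C, hCc, hxC⟩ := hoff x hx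
        obtain ⟨t, ht, hxt, hsub, -, -⟩ := hT C hCc
        exact ⟨t, ⟨ht, hsub⟩, hxt x hxC⟩
    · exact iUnion₂_subset fun t ht => ht.2

end

end Pool.Agent.Y217.PB
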