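import Pool.Agent.Y217.PB.Stm

/-! The inequality, and `N + 1` vertices in the case of equality. -/

set_option autoImplicit false

universe u

namespace Pool.Agent.Y217.PB

open Set Topology Metric
open Pool.Agent.Helper775.Surf Pool.Agent.Helper775.Clo
open scoped InnerProductSpace

variable {M : Type u} [TopologicalSpace M] [CompactSpace M] [T2Space M]
  [TopologicalSpace.MetrizableSpace M] [ConnectedSpace M] [LocallyPathConnectedSpace M]
  {N : ℕ} {f : M → EuclideanSpace ℝ (Fin N)}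

theorem four_le (hC : JCard.{u}) (S : CSetup f) (hfin : (extremePoints ℝ (Hul f)).Finite)
    (hN : 6 ≤ N) : 4 ≤ Nat.card (EdgeT f) := by
  obtain ⟨-, h1, h2, -, -⟩ := hC M N f S hfin
  have h3 : 6 * 7 ≤ N * (extremePoints ℝ (Hul f)).ncard := Nat.mul_le_mul hN (by omega)
  omega

/-- the basic inequality for the graph of the hull -/
theorem basic (hK : JCount.{u}) (hG : JGraph.{u}) (hC : JCard.{u}) (S : CSetup f)
    (hfin : (extremePoints ℝ (Hul f)).Finite) (hN : 6 ≤ N) :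
    Nat.card (EdgeT f) + 6 ≤ 3 * betti1 M + 3 * (extremePoints ℝ (Hul f)).ncard := by
  have h4 := four_le hC S hfin hN
  obtain ⟨hE, -, -, -, -⟩ := hC M N f S hfin
  obtain ⟨Γ, hΓ⟩ := hG M N f S hfin
  haveI : Fintype (extremePoints ℝ (Hul f)) := hfin.fintype
  haveI : Fintype (EdgeT f) := Fintype.ofFinite _
  rw [Nat.card_eq_fintype_card] at h4
  have h5 := (hK M N f S _ _ Γ hΓ.good h4).2.1
  rw [← Nat.card_eq_fintype_card, ← Nat.card_eq_fintype_card, Nat.card_coe_set_eq] at h5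
  exact h5

/-- Pohl's inequality -/
theorem ineq (hK : JCount.{u}) (hG : JGraph.{u}) (hC : JCard.{u}) (S : CSetup f)
    (hfin : (extremePoints ℝ (Hul f)).Finite) (hN : 6 ≤ N) :
    N * N + 6 ≤ 6 * betti1 M + 5 * N := by
  have h := basic hK hG hC S hfin hN
  obtain ⟨-, h1, h2, -, -⟩ := hC M N f S hfin
  obtain ⟨k, rfl⟩ : ∃ k, N = 6 + k := ⟨N - 6, by omega⟩
  set v := (extremePoints ℝ (Hul f)).ncard
  have h3 : k * (6 + k + 1) ≤ k * v := Nat.mul_le_mul le_rfl h1
  nlinarith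

/-- a facet has at most `N` vertices in the case of equality -/
theorem facet_le (hK : JCount.{u}) (hF : JFacet.{u}) (S : CSetup f)
    (hfin : (extremePoints ℝ (Hul f)).Finite) (hN : 6 ≤ N)
    (heq : N * N + 6 = 6 * betti1 M + 5 * N) (n : EuclideanSpace ℝ (Fin N)) (m : ℝ) (hn : n ≠ 0)
    (hm : ∀ r ∈ Hul f, ⟪n, r⟫_ℝ ≤ m)
    (hd : Module.finrank ℝ (vectorSpan ℝ {r | r ∈ Hul f ∧ ⟪n, r⟫_ℝ = m}) = N - 1) :
    (extremePoints ℝ (Hul f) ∩ {r | ⟪n, r⟫_ℝ = m}).ncard ≤ N := by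
  obtain ⟨ι, κ, iι, iκ, Γ, hΓ, h1, h2, h3⟩ := hF M N f S hfin (by omega) n m hn hm hd
  set v := (extremePoints ℝ (Hul f) ∩ {r | ⟪n, r⟫_ℝ = m}).ncard
  have h4 : 7 * 6 ≤ (N + 1) * v := Nat.mul_le_mul (by omega) (by omega)
  have h5 := (hK M N f S ι κ Γ hΓ (by omega)).2.1
  rw [h1] at h5
  obtain ⟨k, rfl⟩ : ∃ k, N = 6 + k := ⟨N - 6, by omega⟩
  by_contra hc
  push Not at hc
  have h6 : (k + 1) * (6 + k + 1) ≤ (k + 1) * v := Nat.mul_le_mul le_rfl hc
  nlinarith

/-- in the case of equality there are `N + 1` vertices -/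
theorem card_eq (hK : JCount.{u}) (hG : JGraph.{u}) (hC : JCard.{u}) (hF : JFacet.{u}) (hS : JSimp)
    (S : CSetup f) (hfin : (extremePoints ℝ (Hul f)).Finite) (hN : 6 ≤ N)
    (heq : N * N + 6 = 6 * betti1 M + 5 * N) :
    (extremePoints ℝ (Hul f)).ncard = N + 1 ∧ 2 * Nat.card (EdgeT f) = N * (N + 1) := by
  have h := basic hK hG hC S hfin hN
  obtain ⟨-, h1, h2, h3, h4⟩ := hC M N f S hfin
  have key : (extremePoints ℝ (Hul f)).ncard ≤ N + 1 := by
    by_cases h6 : N = 6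
    · have h7 : 2 * Nat.card (EdgeT f) = N * (extremePoints ℝ (Hul f)).ncard := by
        subst h6
        omega
      refine hS N (Hul f) (by omega) (hul_compact S.cont) (convex_convexHull ℝ _)
        (hul_interior S) hfin ?_ (h4 h7)
      intro n m hn hm hd
      exact facet_le hK hF S hfin hN heq n m hn hm hd
    · obtain ⟨k, rfl⟩ : ∃ k, N = 7 + k := ⟨N - 7, by omega⟩
      set v := (extremePoints ℝ (Hul f)).ncard
      by_contra hc
      push Not at hc
      have h6 : (k + 1) * (7 + k + 2) ≤ (k + 1) * v := Nat.mul_le_mul le_rfl (by omega)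
      nlinarith
  have hv : (extremePoints ℝ (Hul f)).ncard = N + 1 := le_antisymm key h1
  refine ⟨hv, ?_⟩
  rw [hv] at h2 h3
  have h8 : (N + 1) * (N + 1 - 1) = N * (N + 1) := by
    rw [Nat.add_sub_cancel]; ring
  rw [h8] at h3
  exact le_antisymm h3 h2

end Pool.Agent.Y217.PB
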