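import Pool.Agent.Helper775.Clo.Thm

/-!
# Project PB: Q2 of MP_beb0a3_gt (Pohl's inequality for tight topological surfaces)

Definitions and the statements of the tasks (wave 1). Everything about cocycles (`Coc`, `Null`,
`Triv`, `Ess`, `IntPt`, `Punct`, `FinH1`, `CSetup`, ...) is in `Pool/Agent/Helper775/Surf/Defs.lean`
and `Pool/Agent/Helper775/Clo/Defs.lean`; useful lemmas are in `Helper775/Surf/Coh.lean`,
`Helper775/Clo/Top.lean`, `Helper775/Surf/Topo.lean`, `Helper775/Clo/Fac.lean`.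
-/

set_option autoImplicit false

universe u

namespace Pool.Agent.Y217.PB

open Set Topology Metric
open Pool.Agent.Helper775.Surf Pool.Agent.Helper775.Clo
open scoped InnerProductSpace

/-! ### the first Betti number mod 2 -/

/-- cocycles near `X` -/
def CG {M : Type u} [TopologicalSpace M] (X : Set M) : Submodule (ZMod 2) (M → M → ZMod 2) where
  carrier := {t | Coc X t}
  add_mem' := fun {a b} ha hb => Coc.add ha hb
  zero_mem' := coc_zero X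
  smul_mem' := by
    intro c t ht
    have h : ∀ c : ZMod 2, c = 0 ∨ c = 1 := by decide
    rcases h c with rfl | rfl
    · rw [zero_smul]; exact coc_zero X
    · rw [one_smul]; exact ht

/-- coboundaries near `X` -/
def NG {M : Type u} [TopologicalSpace M] (X : Set M) : Submodule (ZMod 2) (M → M → ZMod 2) where
  carrier := {t | Null X t}
  add_mem' := fun {a b} ha hb => Null.add ha hb
  zero_mem' := null_zero X
  smul_mem' := by
    intro c t ht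
    have h : ∀ c : ZMod 2, c = 0 ∨ c = 1 := by decide
    rcases h c with rfl | rfl
    · rw [zero_smul]; exact null_zero X
    · rw [one_smul]; exact ht

/-- the first Betti number mod 2: the dimension of the first Alexander-Spanier cohomology group with
coefficients in `ℤ/2` -/
noncomputable def betti1 (M : Type u) [TopologicalSpace M] : ℕ :=
  Module.finrank (ZMod 2) (↥(CG (univ : Set M)) ⧸ (NG (univ : Set M)).submoduleOf (CG (univ : Set M)))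

/-! ### arcs, acyclic sets, graphs -/

/-- every cocycle near `X` is a coboundary near `X` -/
def Acyc {M : Type u} [TopologicalSpace M] (X : Set M) : Prop :=
  ∀ t : M → M → ZMod 2, Coc X t → Null X t

/-- `A` is an arc from `p` to `q` -/
structure IsArc {M : Type u} [TopologicalSpace M] (A : Set M) (p q : M) : Prop where
  closed : IsClosed A
  p_mem : p ∈ A
  q_mem : q ∈ A
  par : ∃ g : M → ℝ, Continuous g ∧ InjOn g A ∧ g '' A = Icc 0 1 ∧ g p = 0 ∧ g q = 1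

/-- fat vertices -/
structure IsFat {M : Type u} [TopologicalSpace M] (Z : Set M) : Prop where
  closed : IsClosed Z
  ne : Z.Nonempty
  conn : IsPreconnected Z
  acyc : Acyc Z

/-- a graph in `M` with fat vertices `Z i`, `i : ι`, and edges (arcs) `A k`, `k : κ`; the edge `A k`
joins the point `p0 k` of `Z (i0 k)` to the point `p1 k` of `Z (i1 k)` -/
structure FGraph (M : Type u) (ι κ : Type) where
  Z : ι → Set M
  A : κ → Set M
  i0 : κ → ι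
  i1 : κ → ι
  p0 : κ → M
  p1 : κ → M

namespace FGraph

variable {M : Type u} {ι κ : Type}

/-- the conditions on a graph; it is simple: no loops, no double edges -/
structure Good [TopologicalSpace M] (Γ : FGraph M ι κ) : Prop where
  fat : ∀ i, IsFat (Γ.Z i)
  disj : ∀ i j, i ≠ j → Disjoint (Γ.Z i) (Γ.Z j)
  arc : ∀ k, IsArc (Γ.A k) (Γ.p0 k) (Γ.p1 k)
  m0 : ∀ k, Γ.p0 k ∈ Γ.Z (Γ.i0 k)
  m1 : ∀ k, Γ.p1 k ∈ Γ.Z (Γ.i1 k)
  loopless : ∀ k, Γ.i0 k ≠ Γ.i1 k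
  inter : ∀ k i x, x ∈ Γ.A k → x ∈ Γ.Z i → x = Γ.p0 k ∨ x = Γ.p1 k
  ee : ∀ k l x, k ≠ l → x ∈ Γ.A k → x ∈ Γ.A l → ∃ i, x ∈ Γ.Z i
  simple : ∀ k l, ({Γ.i0 k, Γ.i1 k} : Set ι) = {Γ.i0 l, Γ.i1 l} → k = l

/-- the union of all vertices and edges -/
def pts (Γ : FGraph M ι κ) : Set M := (⋃ i, Γ.Z i) ∪ ⋃ k, Γ.A k

/-- the union of all vertices and of all edges except `k` -/
def off (Γ : FGraph M ι κ) (k : κ) : Set M := (⋃ i, Γ.Z i) ∪ ⋃ l ∈ {l : κ | l ≠ k}, Γ.A l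

/-- the open edge `k` -/
def opn (Γ : FGraph M ι κ) (k : κ) : Set M := Γ.A k \ {Γ.p0 k, Γ.p1 k}

/-- the set `C` (a component of the complement) is adjacent to the edge `k` -/
def Adj [TopologicalSpace M] (Γ : FGraph M ι κ) (C : Set M) (k : κ) : Prop :=
  (closure C ∩ Γ.opn k).Nonempty

/-- the cocycle `w` jumps along the edge `k`, and only there -/
def Jump [TopologicalSpace M] (Γ : FGraph M ι κ) (k : κ) (w : M → M → ZMod 2) : Prop :=
  ∃ s s' : M → ZMod 2, Triv (Γ.off k) w s ∧ Triv (Γ.A k) w s' ∧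
    s (Γ.p0 k) + s' (Γ.p0 k) ≠ s (Γ.p1 k) + s' (Γ.p1 k)

/-- the edges `k₁, k₂, k₃` form a triangle -/
def Tri (Γ : FGraph M ι κ) (k₁ k₂ k₃ : κ) : Prop :=
  ∃ i₁ i₂ i₃ : ι, i₁ ≠ i₂ ∧ i₂ ≠ i₃ ∧ i₃ ≠ i₁ ∧ ({Γ.i0 k₁, Γ.i1 k₁} : Set ι) = {i₁, i₂} ∧
    ({Γ.i0 k₂, Γ.i1 k₂} : Set ι) = {i₂, i₃} ∧ ({Γ.i0 k₃, Γ.i1 k₃} : Set ι) = {i₃, i₁}

end FGraph

/-- the components of the complement of `G` -/
def comps {M : Type u} [TopologicalSpace M] (G : Set M) : Set (Set M) :=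
  {C | ∃ x ∈ Gᶜ, C = connectedComponentIn Gᶜ x}

/-! ### wave 1, topology: statements -/

/-- PB-A1: glueing trivializations of a cocycle along closed sets -/
def JGlue : Prop := ∀ (M : Type u) [TopologicalSpace M] [CompactSpace M] [T2Space M]
  (X Y : Set M) (t : M → M → ZMod 2) (s s' : M → ZMod 2), IsClosed X → IsClosed Y →
  Triv X t s → Triv Y t s' → (∀ x ∈ X ∩ Y, s x = s' x) →
  ∃ σ : M → ZMod 2, Triv (X ∪ Y) t σ ∧ (∀ x ∈ X, σ x = s x) ∧ (∀ x ∈ Y, σ x = s' x)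

/-- PB-A2: the union of two closed acyclic sets with preconnected intersection is acyclic -/
def JUnion : Prop := ∀ (M : Type u) [TopologicalSpace M] [CompactSpace M] [T2Space M]
  (X Y : Set M), IsClosed X → IsClosed Y → Acyc X → Acyc Y → IsPreconnected (X ∩ Y) → Acyc (X ∪ Y)

/-- PB-A3: cocycles trivialized along a closed set are trivial near it -/
def JIntr : Prop := ∀ (M : Type u) [TopologicalSpace M] [CompactSpace M] [T2Space M]
  [TopologicalSpace.MetrizableSpace M] (X : Set M) (t : M → M → ZMod 2) (s : M → ZMod 2),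
  IsClosed X → Coc X t → (∀ x ∈ X, ∃ W ∈ 𝓝 x, ∀ a ∈ W ∩ X, ∀ b ∈ W ∩ X, t a b = s a + s b) →
  ∃ σ : M → ZMod 2, Triv X t σ ∧ ∀ x ∈ X, σ x = s x

/-- PB-A4: arcs: acyclic, connected, can be cut at an inner point, the open arc is connected and
dense in the arc -/
def JArc : Prop := ∀ (M : Type u) [TopologicalSpace M] [CompactSpace M] [T2Space M]
  [TopologicalSpace.MetrizableSpace M] (A : Set M) (p q : M), IsArc A p q →
  p ≠ q ∧ IsPreconnected A ∧ Acyc A ∧ IsPreconnected (A \ {p, q}) ∧ A ⊆ closure (A \ {p, q}) ∧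
  ∀ m ∈ A, m ≠ p → m ≠ q → ∃ A₀ A₁ : Set M, IsArc A₀ p m ∧ IsArc A₁ m q ∧ A₀ ∪ A₁ = A ∧
    A₀ ∩ A₁ = {m}

/-- PB-B1: a cocycle away from a finite set extends over the points where it is not essential -/
def JExt : Prop := ∀ (M : Type u) [TopologicalSpace M] [CompactSpace M] [T2Space M]
  (Y Y' : Set M) (t : M → M → ZMod 2), Y.Finite → Y' ⊆ Y → Coc Yᶜ t →
  (∀ y ∈ Y, y ∉ Y' → ¬ Ess y t) →
  ∃ t' : M → M → ZMod 2, Coc Y'ᶜ t' ∧ ∀ x, x ∉ Y → ∃ U ∈ 𝓝 x, ∀ a ∈ U, ∀ b ∈ U, t' a b = t a b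

/-- PB-B2: essentiality is additive -/
def JEssAdd : Prop := ∀ (M : Type u) [TopologicalSpace M] [CompactSpace M] [T2Space M]
  (y : M) (O : Set M) (t t' : M → M → ZMod 2), IntPt y → IsOpen O → y ∈ O →
  Coc (O \ {y}) t → Coc (O \ {y}) t' → (Ess y (t + t') ↔ ¬ (Ess y t ↔ Ess y t'))

/-- PB-B3: the number of essential points is not one -/
def JParity : Prop := ∀ (M : Type u) [TopologicalSpace M] [CompactSpace M] [T2Space M]
  [ConnectedSpace M] (N : ℕ) (f : M → EuclideanSpace ℝ (Fin N)), CSetup f →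
  ∀ (Y : Set M) (y : M) (t : M → M → ZMod 2), Y.Finite → y ∈ Y → Coc Yᶜ t →
  (∀ y' ∈ Y, y' ≠ y → ¬ Ess y' t) → ¬ Ess y t

/-- PB-D1: points carrying a pair class which is trivial near the closed set `Z` (up to a global
class) are not separated by `Z` -/
def JSep : Prop := ∀ (M : Type u) [TopologicalSpace M] [CompactSpace M] [T2Space M]
  [ConnectedSpace M] [LocallyPathConnectedSpace M] (N : ℕ) (f : M → EuclideanSpace ℝ (Fin N)),
  CSetup f → ∀ (Z : Set M) (x x' : M) (v t : M → M → ZMod 2), IsClosed Z → x ∉ Z → x' ∉ Z →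
  x ≠ x' → Coc ({x, x'}ᶜ : Set M) v → Ess x v → Coc univ t → Null Z (v + t) →
  connectedComponentIn Zᶜ x = connectedComponentIn Zᶜ x'

/-- PB-D2: closed acyclic sets do not separate -/
def JAcycCompl : Prop := ∀ (M : Type u) [TopologicalSpace M] [CompactSpace M] [T2Space M]
  [ConnectedSpace M] [LocallyPathConnectedSpace M] (N : ℕ) (f : M → EuclideanSpace ℝ (Fin N)),
  CSetup f → ∀ (Z : Set M), IsClosed Z → Acyc Z → IsPreconnected (Zᶜ : Set M)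

/-- PB-C: an arc separates locally at its inner points -/
def JLoc : Prop := ∀ (M : Type u) [TopologicalSpace M] [CompactSpace M] [T2Space M]
  [TopologicalSpace.MetrizableSpace M]
  [ConnectedSpace M] [LocallyPathConnectedSpace M] (N : ℕ) (f : M → EuclideanSpace ℝ (Fin N)),
  CSetup f → ∀ (A : Set M) (p q m : M) (D : Set M) (ψ : M → ℝ × ℝ) (φ : ℝ × ℝ → M),
  IsArc A p q → m ∈ A → m ≠ p → m ≠ q → Chart D BoxI ψ φ → p ∉ D → q ∉ D →
  ∀ B : Set M, IsOpen B → B ⊆ D → m ∈ B → ¬ IsPreconnected (B \ A)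

/-- PB-E1: pair classes with a jump at an edge, essential at points near an inner point of it -/
def JJump1 : Prop := ∀ (M : Type u) [TopologicalSpace M] [CompactSpace M] [T2Space M]
  [TopologicalSpace.MetrizableSpace M]
  [ConnectedSpace M] [LocallyPathConnectedSpace M] (N : ℕ) (f : M → EuclideanSpace ℝ (Fin N)),
  CSetup f → ∀ (ι κ : Type) [Finite ι] [Finite κ] (Γ : FGraph M ι κ), Γ.Good →
  ∀ (k : κ) (m : M), m ∈ Γ.opn k → ∀ W ∈ 𝓝 m, ∃ B : Set M, IsOpen B ∧ IsPreconnected B ∧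
    m ∈ B ∧ B ⊆ W ∧ ¬ IsPreconnected (B \ Γ.A k) ∧
    ∀ x ∈ B, ∀ x' ∈ B, x ∉ Γ.A k → x' ∉ Γ.A k →
      connectedComponentIn (B \ Γ.A k) x ≠ connectedComponentIn (B \ Γ.A k) x' →
      x ∉ Γ.pts ∧ x' ∉ Γ.pts ∧ ∃ v : M → M → ZMod 2, Coc ({x, x'}ᶜ : Set M) v ∧ Ess x v ∧
        Ess x' v ∧ Γ.Jump k v

/-- PB-E2: classes with a jump at a given edge, essential only at points of `Y` -/
def JJump2 : Prop := ∀ (M : Type u) [TopologicalSpace M] [CompactSpace M] [T2Space M]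
  [TopologicalSpace.MetrizableSpace M]
  [ConnectedSpace M] [LocallyPathConnectedSpace M] (N : ℕ) (f : M → EuclideanSpace ℝ (Fin N)),
  CSetup f → ∀ (ι κ : Type) [Finite ι] [Finite κ] (Γ : FGraph M ι κ), Γ.Good →
  ∀ (Y : Set M), Y.Finite → (∀ y ∈ Y, y ∉ Γ.pts) → (∀ C ∈ comps Γ.pts, (Y ∩ C).Nonempty) →
  ∀ k : κ, ∃ w : M → M → ZMod 2, Coc Yᶜ w ∧ Γ.Jump k w

/-- PB-F: the Euler inequality -/
def JEuler : Prop := ∀ (M : Type u) [TopologicalSpace M] [CompactSpace M] [T2Space M]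
  [TopologicalSpace.MetrizableSpace M]
  [ConnectedSpace M] [LocallyPathConnectedSpace M] (N : ℕ) (f : M → EuclideanSpace ℝ (Fin N)),
  CSetup f → ∀ (ι κ : Type) [Fintype ι] [Fintype κ] (Γ : FGraph M ι κ), Γ.Good →
  (comps Γ.pts).Finite → 0 < Fintype.card κ →
  Fintype.card κ + 2 ≤ betti1 M + Fintype.card ι + (comps Γ.pts).ncard

/-- PB-G: at most two components are adjacent to an edge -/
def JTwo : Prop := ∀ (M : Type u) [TopologicalSpace M] [CompactSpace M] [T2Space M]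
  [TopologicalSpace.MetrizableSpace M]
  [ConnectedSpace M] [LocallyPathConnectedSpace M] (N : ℕ) (f : M → EuclideanSpace ℝ (Fin N)),
  CSetup f → ∀ (ι κ : Type) [Finite ι] [Finite κ] (Γ : FGraph M ι κ), Γ.Good →
  ∀ k : κ, ∀ C₁ ∈ comps Γ.pts, ∀ C₂ ∈ comps Γ.pts, ∀ C₃ ∈ comps Γ.pts,
  Γ.Adj C₁ k → Γ.Adj C₂ k → Γ.Adj C₃ k → C₁ = C₂ ∨ C₁ = C₃ ∨ C₂ = C₃

/-- PB-G2: a pair class for two components adjacent to the edge `k` -/
def JPair : Prop := ∀ (M : Type u) [TopologicalSpace M] [CompactSpace M] [T2Space M]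
  [TopologicalSpace.MetrizableSpace M]
  [ConnectedSpace M] [LocallyPathConnectedSpace M] (N : ℕ) (f : M → EuclideanSpace ℝ (Fin N)),
  CSetup f → ∀ (ι κ : Type) [Finite ι] [Finite κ] (Γ : FGraph M ι κ), Γ.Good →
  ∀ k : κ, ∀ C ∈ comps Γ.pts, ∀ C' ∈ comps Γ.pts, C ≠ C' → Γ.Adj C k → Γ.Adj C' k →
  ∀ x ∈ C, ∀ x' ∈ C', ∃ v : M → M → ZMod 2, Coc ({x, x'}ᶜ : Set M) v ∧ Ess x v ∧ Ess x' v ∧
    Γ.Jump k v

/-- PB-H: a component is adjacent to at least three edges, and if there are only three then they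
form a triangle -/
def JThree : Prop := ∀ (M : Type u) [TopologicalSpace M] [CompactSpace M] [T2Space M]
  [TopologicalSpace.MetrizableSpace M]
  [ConnectedSpace M] [LocallyPathConnectedSpace M] (N : ℕ) (f : M → EuclideanSpace ℝ (Fin N)),
  CSetup f → ∀ (ι κ : Type) [Fintype ι] [Fintype κ] (Γ : FGraph M ι κ), Γ.Good →
  ∀ C ∈ comps Γ.pts, ∀ T : Finset κ, (∀ k, Γ.Adj C k → k ∈ T) → T.card ≤ 3 →
  T.card < Fintype.card κ → ∃ k₁ k₂ k₃ : κ, (T : Set κ) = {k₁, k₂, k₃} ∧ Γ.Tri k₁ k₂ k₃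

/-- PB-I: the count -/
def JCount : Prop := ∀ (M : Type u) [TopologicalSpace M] [CompactSpace M] [T2Space M]
  [TopologicalSpace.MetrizableSpace M]
  [ConnectedSpace M] [LocallyPathConnectedSpace M] (N : ℕ) (f : M → EuclideanSpace ℝ (Fin N)),
  CSetup f → ∀ (ι κ : Type) [Fintype ι] [Fintype κ] (Γ : FGraph M ι κ), Γ.Good →
  4 ≤ Fintype.card κ →
  (comps Γ.pts).Finite ∧ Fintype.card κ + 6 ≤ 3 * betti1 M + 3 * Fintype.card ι ∧
  (Fintype.card κ + 6 = 3 * betti1 M + 3 * Fintype.card ι →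
    (∀ C ∈ comps Γ.pts, ∃ k₁ k₂ k₃ : κ, Γ.Tri k₁ k₂ k₃ ∧
      ∀ k, Γ.Adj C k ↔ k = k₁ ∨ k = k₂ ∨ k = k₃) ∧
    ∀ k, ∃ C₁ ∈ comps Γ.pts, ∃ C₂ ∈ comps Γ.pts, C₁ ≠ C₂ ∧ Γ.Adj C₁ k ∧ Γ.Adj C₂ k)

/-! ### wave 1, polytopes: statements -/

/-- the segment `[a,b]` is an exposed edge of `K` -/
def PEdge {N : ℕ} (K : Set (EuclideanSpace ℝ (Fin N))) (a b : EuclideanSpace ℝ (Fin N)) : Prop :=
  a ≠ b ∧ ∃ (n : EuclideanSpace ℝ (Fin N)) (m : ℝ), (∀ r ∈ K, ⟪n, r⟫_ℝ ≤ m) ∧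
    {r | r ∈ K ∧ ⟪n, r⟫_ℝ = m} = segment ℝ a b

/-- PB-P1: an extreme point which does not maximise `u` is on an edge along which `u` increases -/
def JInc : Prop := ∀ (N : ℕ) (K : Set (EuclideanSpace ℝ (Fin N))), IsCompact K → Convex ℝ K →
  (extremePoints ℝ K).Finite → ∀ (p u : EuclideanSpace ℝ (Fin N)), p ∈ extremePoints ℝ K →
  (∃ r ∈ K, ⟪u, p⟫_ℝ < ⟪u, r⟫_ℝ) → ∃ q, PEdge K p q ∧ ⟪u, p⟫_ℝ < ⟪u, q⟫_ℝ

/-- PB-P2: every extreme point of a `d`-dimensional exposed face is on at least `d` edges in this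
face -/
def JDeg : Prop := ∀ (N : ℕ) (K : Set (EuclideanSpace ℝ (Fin N))), IsCompact K → Convex ℝ K →
  (extremePoints ℝ K).Finite → ∀ (p n : EuclideanSpace ℝ (Fin N)) (m : ℝ),
  p ∈ extremePoints ℝ K → (∀ r ∈ K, ⟪n, r⟫_ℝ ≤ m) → ⟪n, p⟫_ℝ = m →
  {q | PEdge K p q}.Finite ∧
  Module.finrank ℝ (vectorSpan ℝ {r | r ∈ K ∧ ⟪n, r⟫_ℝ = m}) ≤
    {q | PEdge K p q ∧ ⟪n, q⟫_ℝ = m}.ncard

/-- PB-P3: a polytope of dimension `N ≥ 3` all of whose facets have at most `N` vertices and all of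
whose vertices are on at most `N` edges has at most `N + 1` vertices -/
def JSimp : Prop := ∀ (N : ℕ) (K : Set (EuclideanSpace ℝ (Fin N))), 3 ≤ N → IsCompact K →
  Convex ℝ K → (interior K).Nonempty → (extremePoints ℝ K).Finite →
  (∀ (n : EuclideanSpace ℝ (Fin N)) (m : ℝ), n ≠ 0 → (∀ r ∈ K, ⟪n, r⟫_ℝ ≤ m) →
    Module.finrank ℝ (vectorSpan ℝ {r | r ∈ K ∧ ⟪n, r⟫_ℝ = m}) = N - 1 →
    (extremePoints ℝ K ∩ {r | ⟪n, r⟫_ℝ = m}).ncard ≤ N) →
  (∀ p ∈ extremePoints ℝ K, {q | PEdge K p q}.ncard ≤ N) →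
  (extremePoints ℝ K).ncard ≤ N + 1

/-! ### wave 1, the graph of the hull -/

/-- segments which are edges of the hull -/
def EdgeT {M : Type u} {N : ℕ} (f : M → EuclideanSpace ℝ (Fin N)) : Type :=
  {e : Set (EuclideanSpace ℝ (Fin N)) // ∃ a b, Edge f a b ∧ e = segment ℝ a b}

/-- `Γ` is the preimage of the graph of the hull -/
structure HGraph {M : Type u} [TopologicalSpace M] {N : ℕ} (f : M → EuclideanSpace ℝ (Fin N))
    (Γ : FGraph M (extremePoints ℝ (Hul f)) (EdgeT f)) : Prop where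
  good : Γ.Good
  hZ : ∀ i, Γ.Z i = {x | f x = i.1}
  hA : ∀ k, Γ.A k = {x | f x ∈ k.1}
  h0 : ∀ k, f (Γ.p0 k) = (Γ.i0 k).1
  h1 : ∀ k, f (Γ.p1 k) = (Γ.i1 k).1
  edge : ∀ k, Edge f (Γ.i0 k).1 (Γ.i1 k).1
  seg : ∀ k, k.1 = segment ℝ (Γ.i0 k).1 (Γ.i1 k).1

/-- PB-Q1: the graph of the hull sits in the surface -/
def JGraph : Prop := ∀ (M : Type u) [TopologicalSpace M] [CompactSpace M] [T2Space M]
  [TopologicalSpace.MetrizableSpace M]
  [ConnectedSpace M] [LocallyPathConnectedSpace M] (N : ℕ) (f : M → EuclideanSpace ℝ (Fin N)),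
  CSetup f → (extremePoints ℝ (Hul f)).Finite →
  ∃ Γ : FGraph M (extremePoints ℝ (Hul f)) (EdgeT f), HGraph f Γ

/-- PB-Q2: the number of edges -/
def JCard : Prop := ∀ (M : Type u) [TopologicalSpace M] [CompactSpace M] [T2Space M]
  [ConnectedSpace M] (N : ℕ) (f : M → EuclideanSpace ℝ (Fin N)),
  CSetup f → (extremePoints ℝ (Hul f)).Finite →
  Finite (EdgeT f) ∧ N + 1 ≤ (extremePoints ℝ (Hul f)).ncard ∧
  N * (extremePoints ℝ (Hul f)).ncard ≤ 2 * Nat.card (EdgeT f) ∧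
  2 * Nat.card (EdgeT f) ≤
    (extremePoints ℝ (Hul f)).ncard * ((extremePoints ℝ (Hul f)).ncard - 1) ∧
  (2 * Nat.card (EdgeT f) = N * (extremePoints ℝ (Hul f)).ncard →
    ∀ p ∈ extremePoints ℝ (Hul f), {q | PEdge (Hul f) p q}.ncard ≤ N)

/-- PB-Q3: the fat graph of a facet: the vertices of the facet are joined to a fat vertex outside
the facet -/
def JFacet : Prop := ∀ (M : Type u) [TopologicalSpace M] [CompactSpace M] [T2Space M]
  [TopologicalSpace.MetrizableSpace M]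
  [ConnectedSpace M] [LocallyPathConnectedSpace M] (N : ℕ) (f : M → EuclideanSpace ℝ (Fin N)),
  CSetup f → (extremePoints ℝ (Hul f)).Finite → 2 ≤ N →
  ∀ (n : EuclideanSpace ℝ (Fin N)) (m : ℝ), n ≠ 0 → (∀ r ∈ Hul f, ⟪n, r⟫_ℝ ≤ m) →
  Module.finrank ℝ (vectorSpan ℝ {r | r ∈ Hul f ∧ ⟪n, r⟫_ℝ = m}) = N - 1 →
  ∃ (ι κ : Type) (_ : Fintype ι) (_ : Fintype κ) (Γ : FGraph M ι κ), Γ.Good ∧
    Fintype.card ι = (extremePoints ℝ (Hul f) ∩ {r | ⟪n, r⟫_ℝ = m}).ncard + 1 ∧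
    N ≤ (extremePoints ℝ (Hul f) ∩ {r | ⟪n, r⟫_ℝ = m}).ncard ∧
    (N + 1) * (extremePoints ℝ (Hul f) ∩ {r | ⟪n, r⟫_ℝ = m}).ncard ≤ 2 * Fintype.card κ

/-! ### wave 2: the equality case -/

/-- PB-R1: a component adjacent only to edges joining three given vertices is mapped into their
hull -/
def JFace : Prop := ∀ (M : Type u) [TopologicalSpace M] [CompactSpace M] [T2Space M]
  [TopologicalSpace.MetrizableSpace M]
  [ConnectedSpace M] [LocallyPathConnectedSpace M] (N : ℕ) (f : M → EuclideanSpace ℝ (Fin N)),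
  CSetup f → 4 ≤ N → (extremePoints ℝ (Hul f)).Finite → 4 ≤ Nat.card (EdgeT f) →
  ∀ Γ : FGraph M (extremePoints ℝ (Hul f)) (EdgeT f), HGraph f Γ → ∀ C ∈ comps Γ.pts,
  ∀ i₁ i₂ i₃ : extremePoints ℝ (Hul f),
  (∀ k, Γ.Adj C k → (Γ.i0 k = i₁ ∨ Γ.i0 k = i₂ ∨ Γ.i0 k = i₃) ∧
    (Γ.i1 k = i₁ ∨ Γ.i1 k = i₂ ∨ Γ.i1 k = i₃)) →
  ∀ x ∈ C, f x ∈ convexHull ℝ ({i₁.1, i₂.1, i₃.1} : Set (EuclideanSpace ℝ (Fin N)))

/-- PB-R0: `f` is injective on the graph, and the graph is saturated -/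
def JInjG : Prop := ∀ (M : Type u) [TopologicalSpace M] [CompactSpace M] [T2Space M]
  [TopologicalSpace.MetrizableSpace M]
  [ConnectedSpace M] [LocallyPathConnectedSpace M] (N : ℕ) (f : M → EuclideanSpace ℝ (Fin N)),
  CSetup f → ∀ Γ : FGraph M (extremePoints ℝ (Hul f)) (EdgeT f), HGraph f Γ →
  InjOn f Γ.pts ∧ (∀ x y, f x = f y → x ∈ Γ.pts → y ∈ Γ.pts) ∧
  ∀ x, x ∈ Γ.pts ↔ (f x ∈ extremePoints ℝ (Hul f) ∨ ∃ a b, Edge f a b ∧ f x ∈ segment ℝ a b)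

/-- PB-R2: `f` is injective over a triangular face if it is injective over its boundary -/
def JInjT : Prop := ∀ (M : Type u) [TopologicalSpace M] [CompactSpace M] [T2Space M]
  [TopologicalSpace.MetrizableSpace M]
  [ConnectedSpace M] [LocallyPathConnectedSpace M] (N : ℕ) (f : M → EuclideanSpace ℝ (Fin N)),
  CSetup f → ∀ p q r : EuclideanSpace ℝ (Fin N), AffineIndependent ℝ ![p, q, r] →
  (∃ (n : EuclideanSpace ℝ (Fin N)) (m : ℝ), (∀ x ∈ Hul f, ⟪n, x⟫_ℝ ≤ m) ∧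
    {x | x ∈ Hul f ∧ ⟪n, x⟫_ℝ = m} = convexHull ℝ {p, q, r}) →
  convexHull ℝ ({p, q, r} : Set (EuclideanSpace ℝ (Fin N))) ⊆ range f →
  InjOn f {x | f x ∈ segment ℝ p q ∪ segment ℝ q r ∪ segment ℝ r p} →
  InjOn f {x | f x ∈ convexHull ℝ ({p, q, r} : Set (EuclideanSpace ℝ (Fin N)))}

/-- PB-R3: a component whose boundary is a triangle covers the triangle -/
def JSurT : Prop := ∀ (M : Type u) [TopologicalSpace M] [CompactSpace M] [T2Space M]
  [TopologicalSpace.MetrizableSpace M]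
  [ConnectedSpace M] [LocallyPathConnectedSpace M] (N : ℕ) (f : M → EuclideanSpace ℝ (Fin N)),
  CSetup f → (extremePoints ℝ (Hul f)).Finite → Finite (EdgeT f) →
  ∀ Γ : FGraph M (extremePoints ℝ (Hul f)) (EdgeT f), HGraph f Γ → ∀ C ∈ comps Γ.pts,
  ∀ (i₁ i₂ i₃ : extremePoints ℝ (Hul f)) (k₁ k₂ k₃ : EdgeT f), i₁ ≠ i₂ → i₂ ≠ i₃ → i₃ ≠ i₁ →
  ({Γ.i0 k₁, Γ.i1 k₁} : Set (extremePoints ℝ (Hul f))) = {i₁, i₂} →
  ({Γ.i0 k₂, Γ.i1 k₂} : Set (extremePoints ℝ (Hul f))) = {i₂, i₃} →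
  ({Γ.i0 k₃, Γ.i1 k₃} : Set (extremePoints ℝ (Hul f))) = {i₃, i₁} →
  (∀ k, Γ.Adj C k → k = k₁ ∨ k = k₂ ∨ k = k₃) → Γ.Adj C k₁ →
  (∃ C' ∈ comps Γ.pts, C' ≠ C ∧ Γ.Adj C' k₁) →
  AffineIndependent ℝ ![i₁.1, i₂.1, i₃.1] →
  (∃ (n : EuclideanSpace ℝ (Fin N)) (m : ℝ), (∀ x ∈ Hul f, ⟪n, x⟫_ℝ ≤ m) ∧
    {x | x ∈ Hul f ∧ ⟪n, x⟫_ℝ = m} = convexHull ℝ {i₁.1, i₂.1, i₃.1}) →
  convexHull ℝ ({i₁.1, i₂.1, i₃.1} : Set (EuclideanSpace ℝ (Fin N))) ⊆ range f

/-- PB-R4: polytopes with `N + 1` vertices are simplices -/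
def JSimplex : Prop := ∀ (N : ℕ) (K : Set (EuclideanSpace ℝ (Fin N))), IsCompact K →
  Convex ℝ K → (interior K).Nonempty → (extremePoints ℝ K).ncard = N + 1 →
  ∃ a : Fin (N + 1) → EuclideanSpace ℝ (Fin N), AffineIndependent ℝ a ∧
    range a = extremePoints ℝ K ∧ K = convexHull ℝ (range a)

/-- PB-R5: faces of simplices are exposed -/
def JSimplexFace : Prop := ∀ (N : ℕ) (a : Fin (N + 1) → EuclideanSpace ℝ (Fin N)),
  AffineIndependent ℝ a → extremePoints ℝ (convexHull ℝ (range a)) = range a ∧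
  ∀ T : Set (Fin (N + 1)), ∃ (n : EuclideanSpace ℝ (Fin N)) (m : ℝ),
    (∀ x ∈ convexHull ℝ (range a), ⟪n, x⟫_ℝ ≤ m) ∧
    {x | x ∈ convexHull ℝ (range a) ∧ ⟪n, x⟫_ℝ = m} = convexHull ℝ (a '' T)

/-- PB-S1: the hull of a tight substantial surface consisting of faces of a simplex -/
def JConvHull : Prop := ∀ (M : Type u) [TopologicalSpace M] [CompactSpace M] [T2Space M]
  [ConnectedSpace M] (N : ℕ) (f : M → EuclideanSpace ℝ (Fin N)), CSetup f → 1 ≤ N →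
  ∀ (a : Fin (N + 1) → EuclideanSpace ℝ (Fin N)) (T : Set (Finset (Fin (N + 1)))),
  AffineIndependent ℝ a → range f = (⋃ t ∈ T, convexHull ℝ (a '' (t : Set (Fin (N + 1))))) →
  Hul f = convexHull ℝ (range a) ∧ extremePoints ℝ (Hul f) = range a

/-- PB-S2: the components of the complement of the graph, if the surface consists of triangles of
a simplex -/
def JConvComps : Prop := ∀ (M : Type u) [TopologicalSpace M] [CompactSpace M] [T2Space M]
  [TopologicalSpace.MetrizableSpace M]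
  [ConnectedSpace M] [LocallyPathConnectedSpace M] (N : ℕ) (f : M → EuclideanSpace ℝ (Fin N)),
  CSetup f → 3 ≤ N → Function.Injective f →
  ∀ (a : Fin (N + 1) → EuclideanSpace ℝ (Fin N)) (T : Set (Finset (Fin (N + 1)))),
  AffineIndependent ℝ a → (∀ t ∈ T, t.card = 3) →
  range f = (⋃ t ∈ T, convexHull ℝ (a '' (t : Set (Fin (N + 1))))) →
  ∀ Γ : FGraph M (extremePoints ℝ (Hul f)) (EdgeT f), HGraph f Γ →
  (comps Γ.pts).Finite ∧
  (∀ C ∈ comps Γ.pts, Acyc (closure C) ∧ IsPreconnected (closure C ∩ Γ.pts) ∧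
    {k | Γ.Adj C k}.Finite ∧ {k | Γ.Adj C k}.ncard ≤ 3) ∧
  ∀ k, ∃ C₁ ∈ comps Γ.pts, ∃ C₂ ∈ comps Γ.pts, C₁ ≠ C₂ ∧ Γ.Adj C₁ k ∧ Γ.Adj C₂ k

/-- PB-S3: preimages of triangles under an embedding are acyclic -/
def JTriAcyc : Prop := ∀ (M : Type u) [TopologicalSpace M] [CompactSpace M] [T2Space M]
  [TopologicalSpace.MetrizableSpace M] (N : ℕ) (f : M → EuclideanSpace ℝ (Fin N)),
  Continuous f → Function.Injective f → ∀ T : Set (EuclideanSpace ℝ (Fin N)), IsCompact T →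
  Convex ℝ T → Module.finrank ℝ (vectorSpan ℝ T) ≤ 2 → T ⊆ range f → Acyc {x | f x ∈ T}

/-- PB-S4: the reverse Euler inequality for graphs containing a spanning star whose complement
consists of acyclic pieces -/
def JEulerLe : Prop := ∀ (M : Type u) [TopologicalSpace M] [CompactSpace M] [T2Space M]
  [TopologicalSpace.MetrizableSpace M]
  [ConnectedSpace M] [LocallyPathConnectedSpace M] (N : ℕ) (f : M → EuclideanSpace ℝ (Fin N)),
  CSetup f → ∀ (ι κ : Type) [Fintype ι] [Fintype κ] (Γ : FGraph M ι κ), Γ.Good →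
  (comps Γ.pts).Finite →
  (∃ j : ι, ∀ i, i ≠ j → ∃ k, ({Γ.i0 k, Γ.i1 k} : Set ι) = {j, i}) →
  (∀ C ∈ comps Γ.pts, Acyc (closure C) ∧ IsPreconnected (closure C ∩ Γ.pts)) →
  betti1 M + Fintype.card ι + (comps Γ.pts).ncard ≤ Fintype.card κ + 2

end Pool.Agent.Y217.PB
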