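import Pool.Agent.Y217.PB.Stm
import Pool.Agent.Y217.PB.Chi

/-! Task PB-X: the first Betti number by Alexander-Spanier cohomology is the one by singular
homology. -/

set_option autoImplicit false

universe u

namespace Pool.Agent.Y217.PB

def JBetti : Prop :=
  ∀ (M : Type u) [TopologicalSpace M] [CompactSpace M] [T2Space M] [ConnectedSpace M]
    [ChartedSpace (EuclideanSpace ℝ (Fin 2)) M], betti1 M = firstBetti M

end Pool.Agent.Y217.PB
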